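import Pool.Agent.CP69.Cnt

/-!
# CP71/Det: the deterministic part of the upper bound

`S2`: the elements `a` of the block `[x, x + l)` with `p ∈ A`; `S3`, `S4`: those with `q ∈ A` (questions Q1, Q2). `FP`, `FQ1`, `FQ2`: the `a` that give
`p`, `q` (functions of the part of the set outside of a window); `PL`, `QL1`, `QL2`: the level sets.
-/

set_option autoImplicit false

open Finset

namespace Pool.Agent.CP71

open Pool.Agent.CP25 Pool.Agent.CP69

theorem lev1 {V S : Finset ℕ} {F : ℕ → Finset ℕ} (hF : ∀ q ∈ V, F q ⊆ S)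
    (hd : ∀ q ∈ V, ∀ q' ∈ V, q ≠ q' → Disjoint (F q) (F q')) (M : ℕ) :
    ∑ i ∈ range M, (V.filter (fun q => i < (F q).card)).card ≤ S.card := by
  classical
  have h1 : ∀ i ∈ range M, (V.filter (fun q => i < (F q).card)).card =
      ∑ q ∈ V, if i < (F q).card then 1 else 0 := fun i _ => card_filter _ _
  rw [sum_congr rfl h1, sum_comm]
  calc ∑ q ∈ V, ∑ i ∈ range M, (if i < (F q).card then 1 else 0) ≤ ∑ q ∈ V, (F q).card := by
        refine sum_le_sum fun q _ => ?_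
        rw [← card_filter]
        calc ((range M).filter (fun i => i < (F q).card)).card ≤ (range (F q).card).card := by
              refine card_le_card fun i hi => ?_
              rw [mem_range]
              exact (mem_filter.1 hi).2
          _ = (F q).card := card_range _
    _ = (V.biUnion F).card := (card_biUnion fun q hq q' hq' hne => hd q hq q' hq' hne).symm
    _ ≤ S.card := card_le_card (biUnion_subset.2 hF)

theorem lev2 {V S : Finset ℕ} {F : ℕ → Finset ℕ} {M : ℕ} (hM : ∀ q ∈ V, (F q).card ≤ M)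
    (P : ℕ → Prop) [DecidablePred P] (h : ∀ a ∈ S, ∃ q ∈ V, P q ∧ a ∈ F q) :
    S.card ≤ ∑ i ∈ range M, ((V.filter (fun q => i < (F q).card)).filter P).card := by
  classical
  have h1 : S ⊆ (V.filter P).biUnion F := by
    intro a ha
    obtain ⟨q, hq, hP, haq⟩ := h a ha
    exact mem_biUnion.2 ⟨q, mem_filter.2 ⟨hq, hP⟩, haq⟩
  refine (card_le_card h1).trans (card_biUnion_le.trans ?_)
  have h2 : ∀ i ∈ range M, ((V.filter (fun q => i < (F q).card)).filter P).card =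
      ∑ q ∈ V.filter P, if i < (F q).card then 1 else 0 := by
    intro i _
    rw [filter_filter, ← card_filter, filter_filter]
    congr 1
    ext q
    simp only [mem_filter]
    tauto
  rw [sum_congr rfl h2, sum_comm]
  refine sum_le_sum fun q hq => ?_
  rw [← card_filter]
  have h3 := hM q (mem_filter.1 hq).1
  calc (F q).card = (range (F q).card).card := (card_range _).symm
    _ ≤ ((range M).filter (fun i => i < (F q).card)).card := by
        refine card_le_card fun i hi => ?_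
        rw [mem_range] at hi
        rw [mem_filter, mem_range]
        exact ⟨by omega, hi⟩

theorem card_le_of_close {S : Finset ℕ} {M : ℕ} (h : ∀ a ∈ S, ∀ a' ∈ S, a' < a + M) :
    S.card ≤ M := by
  rcases S.eq_empty_or_nonempty with h0 | h0
  · rw [h0]
    simp
  · have h1 : S ⊆ Ico (S.min' h0) (S.min' h0 + M) := by
      intro a ha
      rw [mem_Ico]
      exact ⟨S.min'_le a ha, h _ (S.min'_mem h0) a ha⟩
    calc S.card ≤ (Ico (S.min' h0) (S.min' h0 + M)).card := card_le_card h1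
      _ = M := by
        rw [Nat.card_Ico]
        omega

open Classical in
noncomputable def S1 (A : Set ℕ) (x l : ℕ) : Finset ℕ := (Ico x (x + l)).filter (fun a => a ∈ A)

open Classical in
noncomputable def S2 (A : Set ℕ) (n x l : ℕ) : Finset ℕ :=
  (Ico x (x + l)).filter (fun a => a ∈ A ∧ cn A a + 1 + 2 * l < n ∧
    ∃ p ∈ A, p + cn A a + 1 = n + a)

open Classical in
noncomputable def S3 (A : Set ℕ) (n x l : ℕ) : Finset ℕ :=
  (Ico x (x + l)).filter (fun a => a ∈ A ∧ cn A a + 1 + 2 * l < n ∧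
    ∃ p ∈ A, p + cn A a + 1 = n + a ∧ ∃ b ∈ A, cn A b + 1 = p ∧ ∃ q ∈ A, q + p = b + 1)

open Classical in
noncomputable def S4 (A : Set ℕ) (n x l : ℕ) : Finset ℕ :=
  (Ico x (x + l)).filter (fun a => a ∈ A ∧ cn A a + 1 + 2 * l < n ∧
    ∃ p ∈ A, p + cn A a + 1 = n + a ∧ ∃ b ∈ A, cn A b + 1 = p ∧ b + p + 1 ∈ A)

open Classical in
noncomputable def FP (n x l : ℕ) (G : Finset ℕ) (p : ℕ) : Finset ℕ :=
  G.filter (fun a => x ≤ a ∧ a < x + l ∧ cn (G : Set ℕ) a + 1 + 2 * l < n ∧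
    p + cn (G : Set ℕ) a + 1 = n + a)

open Classical in
noncomputable def PL (n x l X i : ℕ) (G : Finset ℕ) : Finset ℕ :=
  (Ico (x + l) X).filter (fun p => i < (FP n x l G p).card)

open Classical in
noncomputable def FQ1 (n x l v w c : ℕ) (G : Finset ℕ) (q : ℕ) : Finset ℕ :=
  G.filter (fun a => x ≤ a ∧ a < x + l ∧ cn (G : Set ℕ) a + 1 + 2 * l < n ∧
    ∃ p ∈ G, p + cn (G : Set ℕ) a + 1 = n + a ∧ ∃ b ∈ G, v + w < b ∧
      cn (G : Set ℕ) b + c + 1 = p ∧ q + p = b + 1)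

open Classical in
noncomputable def QL1 (n x l v w c i : ℕ) (G : Finset ℕ) : Finset ℕ :=
  (Icc v (v + w)).filter (fun q => i < (FQ1 n x l v w c G q).card)

open Classical in
noncomputable def FQ2 (n x l v : ℕ) (G : Finset ℕ) (q : ℕ) : Finset ℕ :=
  G.filter (fun a => x ≤ a ∧ a < x + l ∧ cn (G : Set ℕ) a + 1 + 2 * l < n ∧
    ∃ p ∈ G, p + cn (G : Set ℕ) a + 1 = n + a ∧ ∃ b ∈ G, b < v ∧
      cn (G : Set ℕ) b + 1 = p ∧ q = b + p + 1)

open Classical in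
noncomputable def QL2 (n x l v w i : ℕ) (G : Finset ℕ) : Finset ℕ :=
  (Icc v (v + w)).filter (fun q => i < (FQ2 n x l v G q).card)

/-- The bad events, for a set `A`. -/
def B1 (A : Set ℕ) (x l N1 : ℕ) : Prop :=
  ∃ T : Finset ℕ, T ⊆ Ico x (x + l) ∧ N1 < T.card ∧ ∀ m ∈ T, m ∈ A

def B2 (A : Set ℕ) (n x l M N1 N2 : ℕ) : Prop :=
  ∑ i ∈ range M, (PL n x l (n ^ 2) i (trS A (n ^ 2) (Ico (x + l) (n ^ 2)))).card ≤ N1 ∧
    ∃ T : ℕ → Finset ℕ,
      (∀ i < M, T i ⊆ PL n x l (n ^ 2) i (trS A (n ^ 2) (Ico (x + l) (n ^ 2))) ∧ ∀ q ∈ T i, q ∈ A) ∧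
      N2 < ∑ i ∈ range M, (T i).card

def B3 (A : Set ℕ) (n x l v w c M N2 N3 : ℕ) : Prop :=
  ∑ i ∈ range M, (QL1 n x l v w c i (trS A (n ^ 2) (Icc v (v + w)))).card ≤ N2 ∧
    ∃ T : ℕ → Finset ℕ,
      (∀ i < M, T i ⊆ QL1 n x l v w c i (trS A (n ^ 2) (Icc v (v + w))) ∧ ∀ q ∈ T i, q ∈ A) ∧
      N3 < ∑ i ∈ range M, (T i).card

def B4 (A : Set ℕ) (n x l v w M N2 N3 : ℕ) : Prop :=
  ∑ i ∈ range M, (QL2 n x l v w i (trS A (n ^ 2) (Icc v (v + w)))).card ≤ N2 ∧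
    ∃ T : ℕ → Finset ℕ,
      (∀ i < M, T i ⊆ QL2 n x l v w i (trS A (n ^ 2) (Icc v (v + w))) ∧ ∀ q ∈ T i, q ∈ A) ∧
      N3 < ∑ i ∈ range M, (T i).card

/-- Sizes. -/
structure Sz (n x l k w : ℕ) : Prop where
  xk : 8 + k ≤ x
  k1 : 1 ≤ k
  hw : w = (l + 1) * (k + 1)
  wn : w + l + 2 ≤ n
  hX : (n + x + l) * k + 2 * ((l + 1) * k) + 8 + (n + x + l) ≤ n ^ 2

variable {A : Set ℕ} {n x l k w : ℕ}

/-- The bound on the number of `a` with the same `p` or `q`: the `a` are close. -/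
theorem far (hW : Win A k (n ^ 2)) {a a' p p' : ℕ} (ha : 8 ≤ a) (ha' : a' ≤ n ^ 2)
    (h : p + cn A a + 1 = n + a) (h' : p' + cn A a' + 1 = n + a') (hf : a + k ^ 2 ≤ a') :
    p + k ≤ p' := by
  have e : k ^ 2 = k * k := by ring
  have h1 := hW.ne' (x := a) (y := a') (j := k) ha (by rw [← e]; exact hf) ha'
  omega

theorem S2_le (hS : Sz n x l k w) (hW : Win A k (n ^ 2)) {M N1 N2 : ℕ} (hM : k ^ 2 ≤ M)
    (h1 : ¬ B1 A x l N1) (h2 : ¬ B2 A n x l M N1 N2) : (S2 A n x l).card ≤ N2 := by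
  classical
  obtain ⟨xk, k1, hw, wn, hX⟩ := hS
  have hxX : x + l ≤ n ^ 2 := by omega
  obtain ⟨G, hG⟩ : ∃ G, G = trS A (n ^ 2) (Ico (x + l) (n ^ 2)) := ⟨_, rfl⟩
  have hcn : ∀ a, a < x + l → cn (G : Set ℕ) a = cn A a := by
    intro a ha
    rw [hG]
    exact cn_tr_lo (fun m hm => by rw [mem_Ico] at hm; omega) (by omega)
  have hmem : ∀ a, a ∈ G → a ∈ A := by
    intro a ha
    rw [hG, mem_trS] at ha
    exact ha.2.2
  have hS1 : (S1 A x l).card ≤ N1 := by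
    by_contra hcon
    exact h1 ⟨S1 A x l, filter_subset _ _, by omega, fun m hm => (mem_filter.1 hm).2⟩
  have hsub : ∀ p ∈ Ico (x + l) (n ^ 2), FP n x l G p ⊆ S1 A x l := by
    intro p _ a ha
    unfold FP at ha
    rw [mem_filter] at ha
    unfold S1
    rw [mem_filter, mem_Ico]
    exact ⟨⟨ha.2.1, ha.2.2.1⟩, hmem a ha.1⟩
  have hd : ∀ p ∈ Ico (x + l) (n ^ 2), ∀ p' ∈ Ico (x + l) (n ^ 2), p ≠ p' →
      Disjoint (FP n x l G p) (FP n x l G p') := by
    intro p _ p' _ hne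
    rw [disjoint_left]
    intro a ha ha'
    unfold FP at ha ha'
    rw [mem_filter] at ha ha'
    omega
  have hl1 := lev1 hsub hd M
  have hcl : ∀ p ∈ Ico (x + l) (n ^ 2), (FP n x l G p).card ≤ M := by
    intro p _
    refine (card_le_of_close (M := k ^ 2) ?_).trans hM
    intro a ha a' ha'
    unfold FP at ha ha'
    rw [mem_filter] at ha ha'
    by_contra hcon
    have h5 := far (n := n) hW (a := a) (a' := a') (p := p) (p' := p) (by omega) (by omega)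
      (by rw [← hcn a ha.2.2.1]; exact ha.2.2.2.2) (by rw [← hcn a' ha'.2.2.1]; exact ha'.2.2.2.2)
      (by omega)
    omega
  have hl2 := lev2 (S := S2 A n x l) hcl (fun p => p ∈ A) (by
    intro a ha
    unfold S2 at ha
    rw [mem_filter, mem_Ico] at ha
    obtain ⟨⟨hxa, hax⟩, haA, hc, p, hp, hpe⟩ := ha
    have hle := cn_le (A := A) a
    have hbig : x + l ≤ p ∧ p < n ^ 2 := by
      have hk : n + x + l ≤ (n + x + l) * k := Nat.le_mul_of_pos_right _ k1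
      constructor
      · omega
      · omega
    refine ⟨p, mem_Ico.2 hbig, hp, ?_⟩
    unfold FP
    rw [mem_filter, hcn a hax]
    refine ⟨?_, hxa, hax, hc, hpe⟩
    rw [hG, mem_trS, mem_Ico]
    exact ⟨by omega, by omega, haA⟩)
  by_contra hcon
  apply h2
  unfold B2
  rw [← hG]
  refine ⟨hl1.trans hS1, fun i => (PL n x l (n ^ 2) i G).filter (fun p => p ∈ A),
    fun i _ => ⟨filter_subset _ _, fun q hq => (mem_filter.1 hq).2⟩, ?_⟩
  have e : ∀ i, PL n x l (n ^ 2) i G = (Ico (x + l) (n ^ 2)).filter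
      (fun p => i < (FP n x l G p).card) := fun i => rfl
  simp only [e]
  omega

/-- The element number `p` and the two elements `b`, `b'` for `p ≤ p'`. -/
theorem b_near (hW : Win A k (n ^ 2)) {b b' p p' l : ℕ} (hb : 8 ≤ b)
    (h : cn A b + 1 = p) (h' : cn A b' + 1 = p') (hpl : p' ≤ p + l)
    (hX : b + (l + 1) * k ≤ n ^ 2) : b' < b + (l + 1) * k := by
  by_contra hcon
  have h1 := hW.el hb (l + 1) hX
  have h2 := cn_mono (A := A) (x := b + (l + 1) * k) (y := b') (by omega)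
  omega

theorem b_mono {b b' p p' : ℕ} (hb' : b' ∈ A) (h : cn A b + 1 = p) (h' : cn A b' + 1 = p')
    (hp : p ≤ p') : b ≤ b' ∧ b + p' ≤ b' + p := by
  have h1 : b ≤ b' := by
    by_contra hcon
    have h2 := cn_lt (x := b') (y := b) hb' le_rfl (by omega)
    omega
  refine ⟨h1, ?_⟩
  have h2 := cn_le_add (A := A) h1
  omega

theorem b_far (hW : Win A k (n ^ 2)) {b b' p p' : ℕ} (hk : 1 ≤ k) (hb : 8 ≤ b) (hb2 : b' ≤ n ^ 2)
    (hb' : b' ∈ A) (h : cn A b + 1 = p) (h' : cn A b' + 1 = p') (hp : p + k ≤ p') :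
    b + p' + 1 ≤ b' + p := by
  obtain ⟨h1, h2⟩ := b_mono hb' h h' (by omega)
  have h3 := hW.ne' (x := b) (y := b') (j := 1) hb (by omega) hb2
  omega

/-- What we know of `a`, `p`, `b`. -/
theorem basic (hS : Sz n x l k w) (hW : Win A k (n ^ 2))
    (hU : ∀ y, n ≤ y → y ≤ n ^ 2 → cn A (4 * y) + 2 ≤ y) {a p b : ℕ}
    (hxa : x ≤ a) (hax : a < x + l) (hc : cn A a + 1 + 2 * l < n) (hp : p + cn A a + 1 = n + a)
    (hbA : b ∈ A) (hb : cn A b + 1 = p) :
    x + l ≤ p ∧ n ≤ p ∧ p < n + x + l ∧ 4 * p ≤ b ∧ b < 8 + (n + x + l) * k := by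
  obtain ⟨xk, k1, hw, wn, hX⟩ := hS
  have hk : n + x + l ≤ (n + x + l) * k := Nat.le_mul_of_pos_right _ k1
  have hle := cn_le (A := A) a
  have hnp : n ≤ p := by
    obtain ⟨-, m, hm, h2, h3⟩ := hW 8 le_rfl (by omega)
    have h4 := cn_ne hm h2 h3
    have h5 := cn_le (A := A) 8
    have h6 := cn_le_add (A := A) (x := 8 + k) (y := a) (by omega)
    omega
  have hpX : p ≤ n ^ 2 := by omega
  refine ⟨by omega, hnp, by omega, ?_, ?_⟩
  · by_contra hcon
    have h1 := hU p hnp hpX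
    have h2 := cn_lt (x := b) (y := 4 * p) hbA le_rfl (by omega)
    omega
  · by_contra hcon
    have h1 := hW.el (x := 8) le_rfl (n + x + l) (by omega)
    have h2 := cn_mono (A := A) (x := 8 + (n + x + l) * k) (y := b) (by omega)
    omega

theorem p_near {a a' p p' : ℕ} (hxa : x ≤ a) (hax : a' < x + l) (hle : a ≤ a')
    (h : p + cn A a + 1 = n + a) (h' : p' + cn A a' + 1 = n + a') : p ≤ p' ∧ p' ≤ p + l := by
  have h1 := cn_mono (A := A) hle
  have h2 := cn_le_add (A := A) hle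
  omega

theorem S3_le (hS : Sz n x l k w) (hW : Win A k (n ^ 2))
    (hU : ∀ y, n ≤ y → y ≤ n ^ 2 → cn A (4 * y) + 2 ≤ y) {M N2 N3 : ℕ} (hM : k ^ 2 ≤ M)
    (h2 : (S2 A n x l).card ≤ N2)
    (h3 : ∀ v < n ^ 2 + 1, x + l < v → ∀ c < w + 2, ¬ B3 A n x l v w c M N2 N3) :
    (S3 A n x l).card ≤ N3 := by
  classical
  have hS' := hS
  obtain ⟨xk, k1, hw, wn, hX⟩ := hS
  rcases (S3 A n x l).eq_empty_or_nonempty with h0 | h0
  · rw [h0]
    simp
  obtain ⟨a0, ha0⟩ : ∃ a0, a0 = (S3 A n x l).min' h0 := ⟨_, rfl⟩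
  have ha0m : a0 ∈ S3 A n x l := by
    rw [ha0]
    exact min'_mem _ h0
  have hmin : ∀ a ∈ S3 A n x l, a0 ≤ a := by
    intro a ha
    rw [ha0]
    exact min'_le _ _ ha
  have ha0' := ha0m
  unfold S3 at ha0'
  rw [mem_filter, mem_Ico] at ha0'
  obtain ⟨⟨hxa0, ha0x⟩, ha0A, hc0, p0, hp0A, hp0, b0, hb0A, hb0, q0, hq0A, hq0⟩ := ha0'
  obtain ⟨f1, f2, f3, f4, f5⟩ := basic hS' hW hU hxa0 ha0x hc0 hp0 hb0A hb0
  have hwe : w = (l + 1) * k + (l + 1) := by
    rw [hw]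
    ring
  have hk : n + x + l ≤ (n + x + l) * k := Nat.le_mul_of_pos_right _ k1
  have hv1 : x + l < q0 := by omega
  have hv2 : q0 < n ^ 2 + 1 := by omega
  obtain ⟨c, hc⟩ : ∃ c, c = cV A (Icc q0 (q0 + w)) := ⟨_, rfl⟩
  have hcw : c < w + 2 := by
    rw [hc]
    unfold cV
    calc _ ≤ (Icc q0 (q0 + w)).card := card_le_card (filter_subset _ _)
      _ = w + 1 := by rw [Nat.card_Icc]; omega
      _ < w + 2 := Nat.lt_succ_self _
  have hB := h3 q0 hv2 hv1 c hcw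
  obtain ⟨G, hG⟩ : ∃ G, G = trS A (n ^ 2) (Icc q0 (q0 + w)) := ⟨_, rfl⟩
  have hlo : ∀ a, a < x + l → cn (G : Set ℕ) a = cn A a := by
    intro a ha
    rw [hG]
    exact cn_tr_lo (fun m hm => by rw [mem_Icc] at hm; omega) (by omega)
  have hhi : ∀ b, q0 + w < b → b ≤ n ^ 2 → cn (G : Set ℕ) b + c = cn A b := by
    intro b hb hbX
    rw [hG, hc]
    exact cn_tr_hi (fun m hm => by rw [mem_Icc] at hm; omega) hbX
  have hmem : ∀ a, a ∈ G → a ∈ A ∧ a < n ^ 2 := by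
    intro a ha
    rw [hG, mem_trS] at ha
    exact ⟨ha.2.2, ha.1⟩
  have hinG : ∀ a, a ∈ A → a < n ^ 2 → (a < q0 ∨ q0 + w < a) → a ∈ G := by
    intro a h1 h2 h3
    rw [hG, mem_trS, mem_Icc]
    exact ⟨h2, by omega, h1⟩
  -- what membership in a fiber says
  have hF : ∀ q a, a ∈ FQ1 n x l q0 w c G q → a ∈ A ∧ x ≤ a ∧ a < x + l ∧
      cn A a + 1 + 2 * l < n ∧ ∃ p ∈ A, p + cn A a + 1 = n + a ∧ ∃ b ∈ A, b < n ^ 2 ∧
        cn A b + 1 = p ∧ q + p = b + 1 := by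
    intro q a ha
    unfold FQ1 at ha
    rw [mem_filter] at ha
    obtain ⟨haG, hxa, hax, hca, p, hp, hpa, b, hb, hbv, hbp, hq⟩ := ha
    rw [hlo a hax] at hca hpa
    have h4 := hhi b hbv (hmem b hb).2.le
    exact ⟨(hmem a haG).1, hxa, hax, hca, p, (hmem p hp).1, hpa, b, (hmem b hb).1, (hmem b hb).2,
      by omega, hq⟩
  have hsub : ∀ q ∈ Icc q0 (q0 + w), FQ1 n x l q0 w c G q ⊆ S2 A n x l := by
    intro q _ a ha
    obtain ⟨haA, hxa, hax, hca, p, hp, hpa, -⟩ := hF q a ha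
    unfold S2
    rw [mem_filter, mem_Ico]
    exact ⟨⟨hxa, hax⟩, haA, hca, p, hp, hpa⟩
  have hd : ∀ q ∈ Icc q0 (q0 + w), ∀ q' ∈ Icc q0 (q0 + w), q ≠ q' →
      Disjoint (FQ1 n x l q0 w c G q) (FQ1 n x l q0 w c G q') := by
    intro q _ q' _ hne
    rw [disjoint_left]
    intro a ha ha'
    obtain ⟨-, -, -, -, p, -, hpa, b, hbA, -, hbp, hq⟩ := hF q a ha
    obtain ⟨-, -, -, -, p', -, hpa', b', hbA', -, hbp', hq'⟩ := hF q' a ha'
    have h4 := (b_mono hbA' hbp hbp' (by omega)).1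
    have h5 := (b_mono hbA hbp' hbp (by omega)).1
    omega
  have hl1 := lev1 hsub hd M
  have hcl : ∀ q ∈ Icc q0 (q0 + w), (FQ1 n x l q0 w c G q).card ≤ M := by
    intro q _
    refine (card_le_of_close (M := k ^ 2) ?_).trans hM
    intro a ha a' ha'
    obtain ⟨-, hxa, hax, hca, p, -, hpa, b, hbA, -, hbp, hq⟩ := hF q a ha
    obtain ⟨-, hxa', hax', hca', p', -, hpa', b', hbA', hbX', hbp', hq'⟩ := hF q a' ha'
    obtain ⟨g1, g2, g3, g4, g5⟩ := basic hS' hW hU hxa hax hca hpa hbA hbp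
    by_contra hcon
    have h5 := far (n := n) hW (a := a) (a' := a') (by omega) (by omega) hpa hpa' (by omega)
    have h6 := b_far hW k1 (b := b) (b' := b') (by omega) hbX'.le hbA' hbp hbp' h5
    omega
  have hl2 := lev2 (S := S3 A n x l) hcl (fun q => q ∈ A) (by
    intro a ha
    have hma := hmin a ha
    unfold S3 at ha
    rw [mem_filter, mem_Ico] at ha
    obtain ⟨⟨hxa, hax⟩, haA, hca, p, hp, hpa, b, hbA, hbp, q, hqA, hq⟩ := ha
    obtain ⟨g1, g2, g3, g4, g5⟩ := basic hS' hW hU hxa hax hca hpa hbA hbp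
    obtain ⟨e1, e2⟩ := p_near (n := n) hxa0 hax hma hp0 hpa
    obtain ⟨e3, e4⟩ := b_mono hbA hb0 hbp e1
    have e5 := b_near hW (b := b0) (b' := b) (l := l) (by omega) hb0 hbp e2 (by omega)
    refine ⟨q, mem_Icc.2 ⟨by omega, by omega⟩, hqA, ?_⟩
    unfold FQ1
    rw [mem_filter, hlo a hax]
    have hbv : q0 + w < b := by omega
    have h4 := hhi b hbv (by omega)
    refine ⟨hinG a haA (by omega) (by omega), hxa, hax, hca, p, hinG p hp (by omega) (by omega),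
      hpa, b, hinG b hbA (by omega) (by omega), hbv, by omega, hq⟩)
  by_contra hcon
  apply hB
  unfold B3
  rw [← hG]
  refine ⟨hl1.trans h2, fun i => (QL1 n x l q0 w c i G).filter (fun p => p ∈ A),
    fun i _ => ⟨filter_subset _ _, fun q hq => (mem_filter.1 hq).2⟩, ?_⟩
  have e : ∀ i, QL1 n x l q0 w c i G = (Icc q0 (q0 + w)).filter
      (fun q => i < (FQ1 n x l q0 w c G q).card) := fun i => rfl
  simp only [e]
  omega

theorem S4_le (hS : Sz n x l k w) (hW : Win A k (n ^ 2))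
    (hU : ∀ y, n ≤ y → y ≤ n ^ 2 → cn A (4 * y) + 2 ≤ y) {M N2 N3 : ℕ} (hM : k ^ 2 ≤ M)
    (h2 : (S2 A n x l).card ≤ N2)
    (h3 : ∀ v < n ^ 2 + 1, x + l < v → ¬ B4 A n x l v w M N2 N3) :
    (S4 A n x l).card ≤ N3 := by
  classical
  have hS' := hS
  obtain ⟨xk, k1, hw, wn, hX⟩ := hS
  rcases (S4 A n x l).eq_empty_or_nonempty with h0 | h0
  · rw [h0]
    simp
  obtain ⟨a0, ha0⟩ : ∃ a0, a0 = (S4 A n x l).min' h0 := ⟨_, rfl⟩
  have ha0m : a0 ∈ S4 A n x l := by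
    rw [ha0]
    exact min'_mem _ h0
  have hmin : ∀ a ∈ S4 A n x l, a0 ≤ a := by
    intro a ha
    rw [ha0]
    exact min'_le _ _ ha
  have ha0' := ha0m
  unfold S4 at ha0'
  rw [mem_filter, mem_Ico] at ha0'
  obtain ⟨⟨hxa0, ha0x⟩, ha0A, hc0, p0, hp0A, hp0, b0, hb0A, hb0, hq0A⟩ := ha0'
  obtain ⟨f1, f2, f3, f4, f5⟩ := basic hS' hW hU hxa0 ha0x hc0 hp0 hb0A hb0
  have hwe : w = (l + 1) * k + (l + 1) := by
    rw [hw]
    ring
  have hk : n + x + l ≤ (n + x + l) * k := Nat.le_mul_of_pos_right _ k1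
  obtain ⟨q0, hq0⟩ : ∃ q0, q0 = b0 + p0 + 1 := ⟨_, rfl⟩
  have hv1 : x + l < q0 := by omega
  have hv2 : q0 < n ^ 2 + 1 := by omega
  have hB := h3 q0 hv2 hv1
  obtain ⟨G, hG⟩ : ∃ G, G = trS A (n ^ 2) (Icc q0 (q0 + w)) := ⟨_, rfl⟩
  have hlo : ∀ a, a ≤ q0 → cn (G : Set ℕ) a = cn A a := by
    intro a ha
    rw [hG]
    exact cn_tr_lo (fun m hm => by rw [mem_Icc] at hm; omega) (by omega)
  have hmem : ∀ a, a ∈ G → a ∈ A ∧ a < n ^ 2 := by
    intro a ha
    rw [hG, mem_trS] at ha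
    exact ⟨ha.2.2, ha.1⟩
  have hinG : ∀ a, a ∈ A → a < q0 → a ∈ G := by
    intro a h1 h3
    rw [hG, mem_trS, mem_Icc]
    exact ⟨by omega, by omega, h1⟩
  have hF : ∀ q a, a ∈ FQ2 n x l q0 G q → a ∈ A ∧ x ≤ a ∧ a < x + l ∧
      cn A a + 1 + 2 * l < n ∧ ∃ p ∈ A, p + cn A a + 1 = n + a ∧ ∃ b ∈ A, b < n ^ 2 ∧
        cn A b + 1 = p ∧ q = b + p + 1 := by
    intro q a ha
    unfold FQ2 at ha
    rw [mem_filter] at ha
    obtain ⟨haG, hxa, hax, hca, p, hp, hpa, b, hb, hbv, hbp, hq⟩ := ha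
    rw [hlo a (by omega)] at hca hpa
    rw [hlo b (by omega)] at hbp
    exact ⟨(hmem a haG).1, hxa, hax, hca, p, (hmem p hp).1, hpa, b, (hmem b hb).1, (hmem b hb).2,
      by omega, hq⟩
  have hsub : ∀ q ∈ Icc q0 (q0 + w), FQ2 n x l q0 G q ⊆ S2 A n x l := by
    intro q _ a ha
    obtain ⟨haA, hxa, hax, hca, p, hp, hpa, -⟩ := hF q a ha
    unfold S2
    rw [mem_filter, mem_Ico]
    exact ⟨⟨hxa, hax⟩, haA, hca, p, hp, hpa⟩
  have hd : ∀ q ∈ Icc q0 (q0 + w), ∀ q' ∈ Icc q0 (q0 + w), q ≠ q' →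
      Disjoint (FQ2 n x l q0 G q) (FQ2 n x l q0 G q') := by
    intro q _ q' _ hne
    rw [disjoint_left]
    intro a ha ha'
    obtain ⟨-, -, -, -, p, -, hpa, b, hbA, -, hbp, hq⟩ := hF q a ha
    obtain ⟨-, -, -, -, p', -, hpa', b', hbA', -, hbp', hq'⟩ := hF q' a ha'
    have h4 := (b_mono hbA' hbp hbp' (by omega)).1
    have h5 := (b_mono hbA hbp' hbp (by omega)).1
    omega
  have hl1 := lev1 hsub hd M
  have hcl : ∀ q ∈ Icc q0 (q0 + w), (FQ2 n x l q0 G q).card ≤ M := by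
    intro q _
    refine (card_le_of_close (M := k ^ 2) ?_).trans hM
    intro a ha a' ha'
    obtain ⟨-, hxa, hax, hca, p, -, hpa, b, hbA, -, hbp, hq⟩ := hF q a ha
    obtain ⟨-, hxa', hax', hca', p', -, hpa', b', hbA', hbX', hbp', hq'⟩ := hF q a' ha'
    obtain ⟨g1, g2, g3, g4, g5⟩ := basic hS' hW hU hxa hax hca hpa hbA hbp
    by_contra hcon
    have h5 := far (n := n) hW (a := a) (a' := a') (by omega) (by omega) hpa hpa' (by omega)
    have h6 := b_mono hbA' hbp hbp' (by omega)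
    omega
  have hl2 := lev2 (S := S4 A n x l) hcl (fun q => q ∈ A) (by
    intro a ha
    have hma := hmin a ha
    unfold S4 at ha
    rw [mem_filter, mem_Ico] at ha
    obtain ⟨⟨hxa, hax⟩, haA, hca, p, hp, hpa, b, hbA, hbp, hqA⟩ := ha
    obtain ⟨g1, g2, g3, g4, g5⟩ := basic hS' hW hU hxa hax hca hpa hbA hbp
    obtain ⟨e1, e2⟩ := p_near (n := n) hxa0 hax hma hp0 hpa
    obtain ⟨e3, e4⟩ := b_mono hbA hb0 hbp e1
    have e5 := b_near hW (b := b0) (b' := b) (l := l) (by omega) hb0 hbp e2 (by omega)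
    refine ⟨b + p + 1, mem_Icc.2 ⟨by omega, by omega⟩, hqA, ?_⟩
    unfold FQ2
    rw [mem_filter, hlo a (by omega)]
    refine ⟨hinG a haA (by omega), hxa, hax, hca, p, hinG p hp (by omega),
      hpa, b, hinG b hbA (by omega), by omega, ?_, rfl⟩
    rw [hlo b (by omega)]
    exact hbp)
  by_contra hcon
  apply hB
  unfold B4
  rw [← hG]
  refine ⟨hl1.trans h2, fun i => (QL2 n x l q0 w i G).filter (fun p => p ∈ A),
    fun i _ => ⟨filter_subset _ _, fun q hq => (mem_filter.1 hq).2⟩, ?_⟩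
  have e : ∀ i, QL2 n x l q0 w i G = (Icc q0 (q0 + w)).filter
      (fun q => i < (FQ2 n x l q0 G q).card) := fun i => rfl
  simp only [e]
  omega

end Pool.Agent.CP71
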