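import Pool.Agent.CM69.Key

/-!
# CP71/KeyUp: upper bounds for the number of candidates in the random set
-/

set_option autoImplicit false

namespace Pool.Agent.CP71

open MeasureTheory ProbabilityTheory Finset
open Pool.Agent.CM69 (tr mem_tr real_biInter)

variable {Ω : Type*} [mΩ : MeasurableSpace Ω] {μ : Measure Ω} {E : ℕ → Set Ω}

theorem key_up [IsProbabilityMeasure μ] (hE : ∀ m, MeasurableSet (E m)) (hi : iIndepSet E μ)
    (X : ℕ) (V : Finset ℕ) {c : ℝ} (h0 : 0 ≤ c) (hc : ∀ m ∈ V, μ.real (E m) ≤ c)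
    (Q : Finset ℕ → Finset ℕ) (hQ : ∀ G, Q G ⊆ V) (N s : ℕ) :
    μ.real {ω | (Q (tr E X V ω)).card ≤ N ∧ ∃ T : Finset ℕ, T ⊆ Q (tr E X V ω) ∧ T.card = s ∧
      ∀ q ∈ T, ω ∈ E q} ≤ (N.choose s : ℝ) * c ^ s := by
  classical
  obtain ⟨B, hB⟩ : ∃ B, B = range X \ V := ⟨_, rfl⟩
  let f : Finset ℕ → ℕ → Set Ω := fun G m => if m ∈ G then E m else (E m)ᶜ
  let g : Finset ℕ → ℕ → Set Ω := fun G m => if m ∈ B then f G m else E m
  have hf : ∀ G m, f G m = E m ∨ f G m = (E m)ᶜ := by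
    intro G m
    simp only [f]
    split_ifs
    · exact Or.inl rfl
    · exact Or.inr rfl
  have hg : ∀ G m, g G m = E m ∨ g G m = (E m)ᶜ := by
    intro G m
    simp only [g]
    split_ifs
    · exact hf G m
    · exact Or.inl rfl
  have hfm : ∀ G m, MeasurableSet (f G m) := by
    intro G m
    rcases hf G m with h | h
    · rw [h]
      exact hE m
    · rw [h]
      exact (hE m).compl
  have hC : ∀ G ∈ B.powerset, {ω | tr E X V ω = G} = ⋂ m ∈ B, f G m := by
    intro G hG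
    rw [mem_powerset] at hG
    ext ω
    rw [Set.mem_ofPred_eq, Set.mem_iInter₂]
    constructor
    · intro h m hm
      simp only [f]
      rw [hB, mem_sdiff, mem_range] at hm
      split_ifs with h2
      · rw [← h, mem_tr] at h2
        exact h2.2.2
      · rw [Set.mem_compl_iff]
        intro h3
        exact h2 (by rw [← h, mem_tr]; exact ⟨hm.1, hm.2, h3⟩)
    · intro h
      ext m
      rw [mem_tr]
      constructor
      · rintro ⟨h2, h3, h4⟩
        have h5 := h m (by rw [hB, mem_sdiff, mem_range]; exact ⟨h2, h3⟩)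
        simp only [f] at h5
        by_contra h6
        rw [if_neg h6] at h5
        exact h5 h4
      · intro h2
        have h3 := hG h2
        have h5 := h m h3
        rw [hB, mem_sdiff, mem_range] at h3
        simp only [f] at h5
        rw [if_pos h2] at h5
        exact ⟨h3.1, h3.2, h5⟩
  have hCm : ∀ G ∈ B.powerset, MeasurableSet {ω | tr E X V ω = G} := by
    intro G hG
    rw [hC G hG]
    exact Finset.measurableSet_biInter _ fun m _ => hfm G m
  have hcov : {ω | (Q (tr E X V ω)).card ≤ N ∧ ∃ T : Finset ℕ, T ⊆ Q (tr E X V ω) ∧ T.card = s ∧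
      ∀ q ∈ T, ω ∈ E q} ⊆
      ⋃ G ∈ B.powerset.filter (fun G => (Q G).card ≤ N), ⋃ T ∈ (Q G).powersetCard s,
        ⋂ m ∈ B ∪ T, g G m := by
    rintro ω ⟨h2, T, hT1, hT2, hT3⟩
    rw [Set.mem_iUnion₂]
    have h4 : tr E X V ω ∈ B.powerset := by
      rw [mem_powerset, hB]
      unfold tr
      exact filter_subset _ _
    refine ⟨tr E X V ω, mem_filter.2 ⟨h4, h2⟩, ?_⟩
    rw [Set.mem_iUnion₂]
    refine ⟨T, mem_powersetCard.2 ⟨hT1, hT2⟩, ?_⟩
    rw [Set.mem_iInter₂]
    intro m hm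
    simp only [g]
    split_ifs with h5
    · have h6 : ω ∈ {ω' | tr E X V ω' = tr E X V ω} := rfl
      rw [hC _ h4, Set.mem_iInter₂] at h6
      exact h6 m h5
    · rw [mem_union] at hm
      rcases hm with hm | hm
      · exact absurd hm h5
      · exact hT3 m hm
  have hone : ∀ G ∈ B.powerset.filter (fun G => (Q G).card ≤ N), ∀ T ∈ (Q G).powersetCard s,
      μ.real (⋂ m ∈ B ∪ T, g G m) ≤ μ.real {ω | tr E X V ω = G} * c ^ s := by
    intro G hG T hT
    rw [mem_filter] at hG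
    rw [mem_powersetCard] at hT
    have hdis : Disjoint B T := by
      rw [disjoint_left]
      intro m hm hm'
      rw [hB, mem_sdiff] at hm
      exact hm.2 (hQ G (hT.1 hm'))
    rw [real_biInter hi _ _ fun m _ => hg G m, prod_union hdis, hC G hG.1,
      real_biInter hi _ _ fun m _ => hf G m]
    have h2 : ∏ m ∈ B, μ.real (g G m) = ∏ m ∈ B, μ.real (f G m) := by
      refine prod_congr rfl fun m hm => ?_
      simp only [g]
      rw [if_pos hm]
    rw [h2]
    refine mul_le_mul_of_nonneg_left ?_ (prod_nonneg fun m _ => measureReal_nonneg)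
    calc ∏ m ∈ T, μ.real (g G m) ≤ ∏ _m ∈ T, c := by
          refine prod_le_prod (fun m _ => measureReal_nonneg) fun m hm => ?_
          have h3 : g G m = E m := by
            simp only [g]
            rw [if_neg (disjoint_right.1 hdis hm)]
          rw [h3]
          exact hc m (hQ G (hT.1 hm))
      _ = c ^ s := by rw [prod_const, hT.2]
  have hsum : ∑ G ∈ B.powerset, μ.real {ω | tr E X V ω = G} ≤ 1 := by
    have h2 : Set.PairwiseDisjoint (↑(B.powerset)) (fun G => {ω | tr E X V ω = G}) := by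
      intro G _ G' _ hne
      rw [Function.onFun, Set.disjoint_left]
      intro ω h3 h4
      exact hne (h3.symm.trans h4)
    rw [← measureReal_biUnion_finset h2 hCm]
    exact measureReal_le_one
  have hcs : 0 ≤ (N.choose s : ℝ) * c ^ s := by positivity
  calc _ ≤ μ.real (⋃ G ∈ B.powerset.filter (fun G => (Q G).card ≤ N),
          ⋃ T ∈ (Q G).powersetCard s, ⋂ m ∈ B ∪ T, g G m) :=
        measureReal_mono hcov (measure_ne_top _ _)
    _ ≤ ∑ G ∈ B.powerset.filter (fun G => (Q G).card ≤ N),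
        μ.real (⋃ T ∈ (Q G).powersetCard s, ⋂ m ∈ B ∪ T, g G m) :=
        measureReal_biUnion_finset_le _ _
    _ ≤ ∑ G ∈ B.powerset.filter (fun G => (Q G).card ≤ N),
        μ.real {ω | tr E X V ω = G} * ((N.choose s : ℝ) * c ^ s) := by
        refine sum_le_sum fun G hG => ?_
        calc _ ≤ ∑ T ∈ (Q G).powersetCard s, μ.real (⋂ m ∈ B ∪ T, g G m) :=
              measureReal_biUnion_finset_le _ _
          _ ≤ ∑ T ∈ (Q G).powersetCard s, μ.real {ω | tr E X V ω = G} * c ^ s :=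
              sum_le_sum fun T hT => hone G hG T hT
          _ = ((Q G).card.choose s : ℝ) * (μ.real {ω | tr E X V ω = G} * c ^ s) := by
              rw [sum_const, card_powersetCard, nsmul_eq_mul]
          _ ≤ (N.choose s : ℝ) * (μ.real {ω | tr E X V ω = G} * c ^ s) := by
              refine mul_le_mul_of_nonneg_right ?_
                (mul_nonneg measureReal_nonneg (pow_nonneg h0 s))
              exact_mod_cast Nat.choose_le_choose s (mem_filter.1 hG).2
          _ = _ := by ring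
    _ ≤ ∑ G ∈ B.powerset, μ.real {ω | tr E X V ω = G} * ((N.choose s : ℝ) * c ^ s) := by
        refine sum_le_sum_of_subset_of_nonneg (filter_subset _ _) fun G _ _ => ?_
        exact mul_nonneg measureReal_nonneg hcs
    _ = (∑ G ∈ B.powerset, μ.real {ω | tr E X V ω = G}) * ((N.choose s : ℝ) * c ^ s) := by
        rw [sum_mul]
    _ ≤ 1 * ((N.choose s : ℝ) * c ^ s) := mul_le_mul_of_nonneg_right hsum hcs
    _ = (N.choose s : ℝ) * c ^ s := one_mul _

theorem up_num {N s : ℕ} {c : ℝ} (h0 : 0 ≤ c) (h : 8 * c * N ≤ s) :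
    (N.choose s : ℝ) * c ^ s ≤ Real.exp (-s) := by
  have h1 : (N.choose s : ℝ) ≤ (N : ℝ) ^ s / (s.factorial : ℝ) := Nat.choose_le_pow_div s N
  have h2 : (s : ℝ) ^ s / (s.factorial : ℝ) ≤ Real.exp s :=
    Real.pow_div_factorial_le_exp _ (Nat.cast_nonneg s) s
  have h3 : ((N : ℝ) * c) ^ s ≤ ((s : ℝ) / 8) ^ s := by
    refine pow_le_pow_left₀ (by positivity) ?_ s
    linarith
  have hf : (0 : ℝ) < (s.factorial : ℝ) := by exact_mod_cast Nat.factorial_pos s
  have h8 : Real.exp 2 ≤ 8 := by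
    have e1 : Real.exp 2 = Real.exp 1 ^ 2 := by
      rw [← Real.exp_nat_mul]
      norm_num
    rw [e1]
    have e2 := Real.exp_one_lt_d9
    have e3 := Real.exp_pos 1
    nlinarith
  calc (N.choose s : ℝ) * c ^ s ≤ (N : ℝ) ^ s / (s.factorial : ℝ) * c ^ s :=
        mul_le_mul_of_nonneg_right h1 (pow_nonneg h0 s)
    _ = ((N : ℝ) * c) ^ s / (s.factorial : ℝ) := by
        rw [mul_pow]
        ring
    _ ≤ ((s : ℝ) / 8) ^ s / (s.factorial : ℝ) := div_le_div_of_nonneg_right h3 hf.le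
    _ = ((s : ℝ) ^ s / (s.factorial : ℝ)) * (1 / 8) ^ s := by
        rw [div_pow, one_div, inv_pow]
        ring
    _ ≤ Real.exp s * Real.exp (-2) ^ s := by
        refine mul_le_mul h2 ?_ (by positivity) (Real.exp_pos _).le
        refine pow_le_pow_left₀ (by norm_num) ?_ s
        rw [Real.exp_neg, one_div]
        exact inv_anti₀ (Real.exp_pos 2) h8
    _ = Real.exp (-s) := by
        rw [← Real.exp_nat_mul, ← Real.exp_add]
        congr 1
        ring

theorem up_le [IsProbabilityMeasure μ] (hE : ∀ m, MeasurableSet (E m)) (hi : iIndepSet E μ)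
    (X : ℕ) (V : Finset ℕ) {c : ℝ} (h0 : 0 ≤ c) (hc : ∀ m ∈ V, μ.real (E m) ≤ c)
    (Q : Finset ℕ → Finset ℕ) (hQ : ∀ G, Q G ⊆ V) {N s : ℕ} (h : 8 * c * N ≤ s) :
    μ.real {ω | (Q (tr E X V ω)).card ≤ N ∧ ∃ T : Finset ℕ, T ⊆ Q (tr E X V ω) ∧ s ≤ T.card ∧
      ∀ q ∈ T, ω ∈ E q} ≤ Real.exp (-s) := by
  refine le_trans (measureReal_mono ?_ (measure_ne_top _ _))
    ((key_up hE hi X V h0 hc Q hQ N s).trans (up_num h0 h))
  rintro ω ⟨h1, T, h2, h3, h4⟩
  obtain ⟨T', hT1, hT2⟩ := exists_subset_card_eq h3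
  exact ⟨h1, T', hT1.trans h2, hT2, fun q hq => h4 q (hT1 hq)⟩

/-- Level sets: `M` candidate sets with together at most `N` elements. -/
theorem lev_le [IsProbabilityMeasure μ] (hE : ∀ m, MeasurableSet (E m)) (hi : iIndepSet E μ)
    (X : ℕ) (V : Finset ℕ) {c : ℝ} (h0 : 0 ≤ c) (hc : ∀ m ∈ V, μ.real (E m) ≤ c)
    (W : ℕ → Finset ℕ → Finset ℕ) (hW : ∀ i G, W i G ⊆ V) (M N r R : ℕ)
    (hR : 8 * c * N + M * (r + 1) ≤ R) :
    μ.real {ω | ∑ i ∈ range M, (W i (tr E X V ω)).card ≤ N ∧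
      ∃ T : ℕ → Finset ℕ, (∀ i < M, T i ⊆ W i (tr E X V ω) ∧ ∀ q ∈ T i, ω ∈ E q) ∧
        R < ∑ i ∈ range M, (T i).card} ≤ M * (N + 1) * Real.exp (-r) := by
  classical
  have hcov : {ω | ∑ i ∈ range M, (W i (tr E X V ω)).card ≤ N ∧
      ∃ T : ℕ → Finset ℕ, (∀ i < M, T i ⊆ W i (tr E X V ω) ∧ ∀ q ∈ T i, ω ∈ E q) ∧
        R < ∑ i ∈ range M, (T i).card} ⊆
      ⋃ i ∈ range M, ⋃ N' ∈ range (N + 1),
        {ω | (W i (tr E X V ω)).card ≤ N' ∧ ∃ T : Finset ℕ, T ⊆ W i (tr E X V ω) ∧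
          max ⌈8 * c * N'⌉₊ r ≤ T.card ∧ ∀ q ∈ T, ω ∈ E q} := by
    rintro ω ⟨h1, T, h2, h3⟩
    by_contra hcon
    rw [Set.mem_iUnion₂] at hcon
    push Not at hcon
    have h4 : ∀ i ∈ range M, ((T i).card : ℝ) ≤ 8 * c * (W i (tr E X V ω)).card + (r + 1) := by
      intro i hi'
      have h5 := hcon i hi'
      rw [Set.mem_iUnion₂] at h5
      push Not at h5
      have h6 : (W i (tr E X V ω)).card < N + 1 := by
        have := single_le_sum (f := fun i => (W i (tr E X V ω)).card)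
          (fun _ _ => Nat.zero_le _) hi'
        have h7 : (W i (tr E X V ω)).card ≤ ∑ i ∈ range M, (W i (tr E X V ω)).card := this
        omega
      have h7 := h5 _ (mem_range.2 h6)
      rw [Set.mem_ofPred_eq] at h7
      have h8 : ¬ max ⌈8 * c * (W i (tr E X V ω)).card⌉₊ r ≤ (T i).card := by
        intro h9
        exact h7 ⟨le_rfl, T i, (h2 i (mem_range.1 hi')).1, h9, (h2 i (mem_range.1 hi')).2⟩
      rw [max_le_iff, not_and_or, not_le, not_le] at h8
      have h9 : 0 ≤ 8 * c * (W i (tr E X V ω)).card := by positivity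
      rcases h8 with h8 | h8
      · have h10 := Nat.ceil_lt_add_one h9
        have h11 : ((T i).card : ℝ) < (⌈8 * c * (W i (tr E X V ω)).card⌉₊ : ℝ) := by
          exact_mod_cast h8
        have : (0 : ℝ) ≤ r := Nat.cast_nonneg r
        linarith
      · have h11 : ((T i).card : ℝ) < r := by exact_mod_cast h8
        linarith
    have h5 : ((∑ i ∈ range M, (T i).card : ℕ) : ℝ) ≤
        ∑ i ∈ range M, (8 * c * (W i (tr E X V ω)).card + (r + 1)) := by
      push_cast
      exact sum_le_sum h4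
    rw [sum_add_distrib, ← mul_sum, sum_const, card_range, nsmul_eq_mul] at h5
    have h6 : ∑ i ∈ range M, ((W i (tr E X V ω)).card : ℝ) ≤ N := by exact_mod_cast h1
    have h7 : 8 * c * ∑ i ∈ range M, ((W i (tr E X V ω)).card : ℝ) ≤ 8 * c * N :=
      mul_le_mul_of_nonneg_left h6 (by positivity)
    have h8 : (R : ℝ) < ((∑ i ∈ range M, (T i).card : ℕ) : ℝ) := by exact_mod_cast h3
    linarith
  have hone : ∀ i ∈ range M, ∀ N' ∈ range (N + 1),
      μ.real {ω | (W i (tr E X V ω)).card ≤ N' ∧ ∃ T : Finset ℕ, T ⊆ W i (tr E X V ω) ∧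
          max ⌈8 * c * N'⌉₊ r ≤ T.card ∧ ∀ q ∈ T, ω ∈ E q} ≤ Real.exp (-r) := by
    intro i _ N' _
    refine (up_le hE hi X V h0 hc (W i) (hW i) (N := N') (s := max ⌈8 * c * N'⌉₊ r) ?_).trans ?_
    · refine (Nat.le_ceil _).trans ?_
      exact_mod_cast le_max_left _ _
    · rw [Real.exp_le_exp]
      have : (r : ℝ) ≤ ((max ⌈8 * c * N'⌉₊ r : ℕ) : ℝ) := by exact_mod_cast le_max_right _ _
      linarith
  calc _ ≤ μ.real (⋃ i ∈ range M, ⋃ N' ∈ range (N + 1),
        {ω | (W i (tr E X V ω)).card ≤ N' ∧ ∃ T : Finset ℕ, T ⊆ W i (tr E X V ω) ∧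
          max ⌈8 * c * N'⌉₊ r ≤ T.card ∧ ∀ q ∈ T, ω ∈ E q}) :=
        measureReal_mono hcov (measure_ne_top _ _)
    _ ≤ ∑ i ∈ range M, μ.real (⋃ N' ∈ range (N + 1),
        {ω | (W i (tr E X V ω)).card ≤ N' ∧ ∃ T : Finset ℕ, T ⊆ W i (tr E X V ω) ∧
          max ⌈8 * c * N'⌉₊ r ≤ T.card ∧ ∀ q ∈ T, ω ∈ E q}) :=
        measureReal_biUnion_finset_le _ _
    _ ≤ ∑ i ∈ range M, ∑ N' ∈ range (N + 1), Real.exp (-r) := by
        refine sum_le_sum fun i hi' => ?_
        exact (measureReal_biUnion_finset_le _ _).trans (sum_le_sum fun N' hN' => hone i hi' N' hN')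
    _ = M * (N + 1) * Real.exp (-r) := by
        rw [sum_const, sum_const, card_range, card_range, nsmul_eq_mul, nsmul_eq_mul]
        push_cast
        ring

end Pool.Agent.CP71
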